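import Pool.Agent.Y242.LW.Stm

set_option autoImplicit false

/-!
# Y242-LW M: monotonicity of lengths
-/

open Set Filter Topology Complex Metric

namespace Pool.Agent.Y448.LW

open LW242

/-- the images of the marked points are ordered -/
theorem order (hA : S_IDXa) (hB : S_IDXb) (hBD : S_JBD) {f g : ℂ → ℂ} {x₁ x₂ ζ₁ ζ₂ A₂ B₁ B₂ : ℝ}
    (hx : x₁ < x₂) (h1 : Adm g x₁ ζ₁) (hg2 : Jul g x₂ ζ₂ A₂) (hf : MapsTo f Hp Hp)
    (hf1 : Jul f ζ₁ x₁ B₁) (hf2 : Jul f ζ₂ x₂ B₂) : ζ₁ < ζ₂ := by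
  have hgm : MapsTo g Hp Hp := h1.1.2.1
  rcases lt_trichotomy ζ₁ ζ₂ with h | h | h
  · exact h
  · exfalso
    obtain ⟨_, _, l1⟩ := hBD f ζ₁ x₁ B₁ hf hf1
    obtain ⟨_, _, l2⟩ := hBD f ζ₂ x₂ B₂ hf hf2
    rw [← h] at l2
    have h3 := tendsto_nhds_unique l1 l2
    have h4 : x₁ = x₂ := by exact_mod_cast h3
    linarith
  · exfalso
    obtain ⟨_, _, l1⟩ := hBD g x₂ ζ₂ A₂ hgm hg2
    obtain ⟨_, _, i3, _, _, i6, _⟩ := hA g x₁ ζ₁ h1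
    have hu : ∀ e : ℝ, 0 < e → ((x₂ : ℂ) + e * I) ∈ Hp := by
      intro e he
      show 0 < ((x₂ : ℂ) + e * I).im
      simpa using he
    have l2 : Tendsto (fun e : ℝ => g (x₂ + e * I)) (𝓝[>] 0) (𝓝[Hp] (ζ₂ : ℂ)) := by
      rw [tendsto_nhdsWithin_iff]
      refine ⟨l1, ?_⟩
      filter_upwards [self_mem_nhdsWithin] with e he
      exact hgm (hu e he)
    have h3 := l2.eventually (i6 ζ₂ h)
    have h4 : ∀ᶠ e : ℝ in 𝓝[>] 0, RtI g x₁ ζ₁ (g (x₂ + e * I)) := by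
      filter_upwards [self_mem_nhdsWithin] with e he
      refine (hB.1 g x₁ ζ₁ h1).1 _ (hu e he) ?_
      simpa using hx
    obtain ⟨e, h5, h6⟩ := (h3.and h4).exists
    exact i3 _ h6 h5

/-- `S_M` -/
theorem t (hA : S_IDXa) (hB : S_IDXb) (hC : S_CLU) (hL : S_LEN) (hO : S_O) (hBD : S_JBD) :
    S_M := by
  intro n φ c x A hb f g ζ f' g' ζ' d d' hsub j hj hno
  have hj1 : j ≤ n := by omega
  have hj2 : j + 1 ≤ n := by omega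
  have hx : x j < x (j + 1) := hb.mono j (j + 1) (by omega) hj2
  have hcz : ∀ z ∈ Hp, z.im ≤ c * z.im := by
    intro z hz
    have h1 : 0 < z.im := hz
    nlinarith [hb.one_le]
  have admg : ∀ i ≤ n, Adm g (x i) (ζ i) := fun i hi =>
    ⟨d.g_uni, fun z hz => (hcz z hz).trans (d.g_im z hz), A i, d.g_jul i hi⟩
  have admg' : ∀ i ≤ n, Adm g' (x i) (ζ' i) := fun i hi =>
    ⟨d'.g_uni, fun z hz => (hcz z hz).trans (d'.g_im z hz), A i, d'.g_jul i hi⟩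
  have admφ : ∀ i ≤ n, Adm φ (x i) (x i) := fun i hi =>
    ⟨hb.uni, fun z hz => (hcz z hz).trans (hb.im_ge z hz), A i, hb.jul i hi⟩
  have ho : ζ j < ζ (j + 1) := order hA hB hBD hx (admg j hj1) (d.g_jul _ hj2) d.f_uni.2.1
    (d.f_jul _ hj1) (d.f_jul _ hj2)
  have ho' : ζ' j < ζ' (j + 1) := order hA hB hBD hx (admg' j hj1) (d'.g_jul _ hj2) d'.f_uni.2.1
    (d'.f_jul _ hj1) (d'.f_jul _ hj2)
  obtain ⟨h, hu, hf'h, hhg, _, hlim⟩ := hO n φ c x A hb f g ζ f' g' ζ' d d' hsub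
  refine hL h (ζ j) (ζ (j + 1)) (ζ' j) (ζ' (j + 1)) hu.1 hu.2.1 hlim ho ho'.le ?_
  refine hC g g' h (x j) (x (j + 1)) (ζ j) (ζ (j + 1)) (ζ' j) (ζ' (j + 1)) (admg j hj1)
    (admg _ hj2) (admg' j hj1) (admg' _ hj2) hu hhg hlim ?_
  rintro q hq hqh ⟨hR, hLt⟩
  have hp1 : f' q ∈ f' '' Hp := ⟨q, hq, rfl⟩
  have hp2 : f' q ∉ f '' Hp := by
    rintro ⟨z, hz, hzq⟩
    apply hqh
    refine ⟨z, hz, ?_⟩
    apply d'.f_uni.2.2 (hu.2.1 hz) hq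
    rw [hf'h z hz, hzq]
  apply hno _ hp1 hp2
  constructor
  · exact ((hB.2.1 f' g' φ (x j) (ζ' j) (x j) (admg' j hj1) (admφ j hj1) d'.f_uni d'.comp q hq
      ((hA g' (x j) (ζ' j) (admg' j hj1)).1 q hR)).1).1 hR
  · exact ((hB.2.1 f' g' φ (x (j + 1)) (ζ' (j + 1)) (x (j + 1)) (admg' _ hj2) (admφ _ hj2)
      d'.f_uni d'.comp q hq ((hA g' (x (j + 1)) (ζ' (j + 1)) (admg' _ hj2)).2.1 q hLt)).2).1 hLt

end Pool.Agent.Y448.LW
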